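import Pool.Agent.Lib.P325w.Trace
import Pool.Agent.Lib.P325F.Sos
import Pool.Agent.Lib.P325v.FinU

/-!
# Sum of squares on unique games with a spectral gap

With `J = 2 ⌊log n / (4 log (1/μ))⌋ + 2`: `n * μ ^ (2 J) ≤ 1`, so `trace (MM ^ (2 J)) ≤ 3`, and
`3 * t ^ (-2 J) ≤ 3 * t ^ (-4) * n ^ (log t / log μ)`.
-/

set_option autoImplicit false

open Finset Matrix Pool.Agent.Lib.P325F Pool.Agent.Lib.P325u

namespace Pool.Agent.Lib.P325w

theorem exists_J {μ t n : ℝ} (hμ0 : 0 < μ) (hμ1 : μ < 1) (ht0 : 0 < t) (ht1 : t < 1)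
    (hn : 1 ≤ n) : ∃ J : ℕ, Even J ∧ 0 < J ∧ n * μ ^ (2 * J) ≤ 1 ∧
      t⁻¹ ^ (2 * J) ≤ 1 / t ^ 4 * n ^ (Real.log t / Real.log μ) := by
  have hlμ : Real.log μ < 0 := Real.log_neg hμ0 hμ1
  have hlt : Real.log t < 0 := Real.log_neg ht0 ht1
  have hln : 0 ≤ Real.log n := Real.log_nonneg hn
  have hn0 : 0 < n := by linarith
  set y : ℝ := Real.log n / (4 * (-Real.log μ)) with hy
  have hy0 : 0 ≤ y := div_nonneg hln (by linarith)
  have hyn : y * (4 * (-Real.log μ)) = Real.log n := div_mul_cancel₀ _ (by linarith)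
  have hf1 : y < (⌊y⌋₊ : ℝ) + 1 := Nat.lt_floor_add_one y
  have hf2 : (⌊y⌋₊ : ℝ) ≤ y := Nat.floor_le hy0
  refine ⟨2 * (⌊y⌋₊ + 1), even_two_mul _, by omega, ?_, ?_⟩
  · have e1 : n * μ ^ (2 * (2 * (⌊y⌋₊ + 1))) =
        Real.exp (Real.log n + (4 * ((⌊y⌋₊ : ℝ) + 1)) * Real.log μ) := by
      rw [Real.exp_add, Real.exp_log hn0]
      congr 1
      rw [mul_comm (4 * ((⌊y⌋₊ : ℝ) + 1)), ← Real.rpow_def_of_pos hμ0, ← Real.rpow_natCast]
      congr 1
      push_cast
      ring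
    rw [e1, Real.exp_le_one_iff]
    nlinarith
  · have e1 : t⁻¹ ^ (2 * (2 * (⌊y⌋₊ + 1))) =
        Real.exp ((4 * ((⌊y⌋₊ : ℝ) + 1)) * (-Real.log t)) := by
      rw [mul_comm (4 * ((⌊y⌋₊ : ℝ) + 1)), ← Real.log_inv, ← Real.rpow_def_of_pos (inv_pos.2 ht0),
        ← Real.rpow_natCast]
      congr 1
      push_cast
      ring
    have e2 : 1 / t ^ 4 * n ^ (Real.log t / Real.log μ) =
        Real.exp (4 * (-Real.log t) + Real.log n * (Real.log t / Real.log μ)) := by
      rw [Real.exp_add, ← Real.rpow_def_of_pos hn0, ← Real.log_inv, mul_comm 4,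
        ← Real.rpow_def_of_pos (inv_pos.2 ht0)]
      congr 1
      rw [show (4 : ℝ) = ((4 : ℕ) : ℝ) by norm_num, Real.rpow_natCast, inv_pow, one_div]
    rw [e1, e2]
    refine Real.exp_le_exp.2 ?_
    have e3 : Real.log n * (Real.log t / Real.log μ) = 4 * y * (-Real.log t) := by
      rw [← hyn]
      have : Real.log μ ≠ 0 := hlμ.ne
      field_simp
    rw [e3]
    nlinarith

/-- Sum of squares of degree `3 t ^ (-4) n ^ (log t / log μ) + 3` certifies, for unique games on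
graphs with second eigenvalue at most `μ`, the value within an additive error `t`. -/
theorem sos_expander {μ t s : ℝ} (hμ0 : 0 < μ) (hμ1 : μ < 1) (ht0 : 0 < t) (ht1 : t < 1)
    (U W Ω ι : Type) [Fintype U] [Fintype W] [Fintype Ω] [Fintype ι]
    (I : P325x.Game U W Ω ι) (hI : I.SecondEigenvalueLE μ) (r : ℕ)
    (E : ((U ⊕ W → Ω) → ℝ) →ₗ[ℝ] ℝ) (hE : IsPseudoExpectation r E)
    (hr : 3 / t ^ 4 * ((Fintype.card U : ℝ) + Fintype.card W) ^ (Real.log t / Real.log μ) + 3 ≤ r)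
    (hval : s ≤ E (fun z => I.satFrac (fun u => z (Sum.inl u)) (fun v => z (Sum.inr v)))) :
    s - t ≤ I.value := by
  classical
  rcases Nat.eq_zero_or_pos (Fintype.card ι) with h0 | hm
  · have h1 : (fun z : U ⊕ W → Ω =>
        I.satFrac (fun u => z (Sum.inl u)) (fun v => z (Sum.inr v))) = 0 := by
      funext z
      unfold P325x.Game.satFrac
      rw [h0]
      simp
    rw [h1, map_zero] at hval
    have h2 : 0 ≤ I.value := by
      unfold P325x.Game.value
      refine Real.iSup_nonneg fun p => ?_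
      unfold P325x.Game.satFrac
      positivity
    linarith
  have hm' : (0 : ℝ) < Fintype.card ι := by exact_mod_cast hm
  have hι : Nonempty ι := Fintype.card_pos_iff.1 hm
  obtain ⟨i0⟩ := id hι
  set n : ℝ := (Fintype.card U : ℝ) + Fintype.card W with hn
  have hcard : (Fintype.card (U ⊕ W) : ℝ) = n := by
    rw [Fintype.card_sum, hn]; push_cast; ring
  have hn1 : 1 ≤ n := by
    have : 1 ≤ Fintype.card U := Fintype.card_pos_iff.2 ⟨I.src i0⟩
    have h2 : (1 : ℝ) ≤ Fintype.card U := by exact_mod_cast this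
    have h3 : (0 : ℝ) ≤ Fintype.card W := Nat.cast_nonneg _
    linarith
  have hsum : s * Fintype.card ι ≤ ∑ e, E (P325u.sat (Sum.inl (I.src e) : U ⊕ W)
      (Sum.inr (I.dst e)) (I.perm e)) := by
    have h1 : (fun z : U ⊕ W → Ω =>
        I.satFrac (fun u => z (Sum.inl u)) (fun v => z (Sum.inr v))) =
        (Fintype.card ι : ℝ)⁻¹ • ∑ e, P325u.sat (Sum.inl (I.src e) : U ⊕ W)
          (Sum.inr (I.dst e)) (I.perm e) := by
      funext z
      have h2 := P325v.satFrac_card I hm z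
      rw [Pi.smul_apply, Finset.sum_apply, smul_eq_mul, ← div_eq_inv_mul, eq_div_iff hm'.ne', h2]
      unfold P325F.sat P325u.sat Good
      apply Finset.sum_congr rfl
      intro e _
      by_cases hc : I.perm e (z (Sum.inl (I.src e))) = z (Sum.inr (I.dst e))
      · simp only [hc, if_true]
      · simp only [hc, if_false]
    rw [h1, map_smul, map_sum, smul_eq_mul, ← div_eq_inv_mul, le_div_iff₀ hm'] at hval
    exact hval
  obtain ⟨J, hJe, hJ0, hJn, hJt⟩ := exists_J hμ0 hμ1 ht0 ht1 hn1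
  have htr := game_trace I hμ0.le hI hJ0
  rw [hcard] at htr
  have hdeg : 3 * t⁻¹ ^ (2 * J) + 3 ≤ r := by
    refine le_trans ?_ hr
    have h1 : 3 / t ^ 4 * n ^ (Real.log t / Real.log μ) =
        3 * (1 / t ^ 4 * n ^ (Real.log t / Real.log μ)) := by ring
    rw [h1]
    linarith
  obtain ⟨z, hz⟩ := sos_of_pe (s := fun e => (Sum.inl (I.src e) : U ⊕ W))
    (t := fun e => Sum.inr (I.dst e)) I.perm (fun e => Sum.inl_ne_inr) hE (Or.inr hJe) hJ0
    (Q := 3) (τ := t) (by norm_num) ht0 hdeg (fun _ => 1) (fun _ => zero_le_one) (by linarith)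
  rw [← P325v.satFrac_card I hm z] at hz
  simp only [one_mul, Finset.sum_const, Finset.card_univ, nsmul_eq_mul, mul_one] at hz
  have h3 : (s - t) * Fintype.card ι ≤
      I.satFrac (fun u => z (Sum.inl u)) (fun v => z (Sum.inr v)) * Fintype.card ι := by
    refine le_trans ?_ hz
    rw [sub_mul]
    linarith
  exact (le_of_mul_le_mul_right h3 hm').trans (P325u.satFrac_le_value I _ _)

end Pool.Agent.Lib.P325w
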