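import Pool.Agent.Lib.P325F.Basic
import Pool.Agent.Lib.P325y.Spec
import Pool.Agent.Lib.P325x.Defs

/-!
# Traces of powers of the adjacency matrix of a bipartite expander

`MM` has the eigenvectors `e₁ = √deg/√(2 m)` (eigenvalue `1`) and `e₂ = ± e₁` (eigenvalue `-1`); on
the orthogonal complement its quadratic form is at most `μ` in absolute value. So
`trace (MM ^ (2 J)) ≤ 2 + n * μ ^ (2 J)`.
-/

set_option autoImplicit false

open Finset Matrix Pool.Agent.Lib.P325F

namespace Pool.Agent.Lib.P325w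

section abs

variable {κ : Type} [Fintype κ] [DecidableEq κ]

/-- the trace of an even power of a symmetric matrix whose form is at most `μ` -/
theorem trace_even_pow_le {B : Matrix κ κ ℝ} (hB : Bᵀ = B) {μ : ℝ}
    (h : ∀ f, |f ⬝ᵥ (B *ᵥ f)| ≤ μ * (f ⬝ᵥ f)) (J : ℕ) :
    (B ^ (2 * J)).trace ≤ Fintype.card κ * μ ^ (2 * J) := by
  have hH : B.IsHermitian := by
    rw [Matrix.IsHermitian, Matrix.conjTranspose_eq_transpose_of_trivial, hB]
  set V : Matrix κ κ ℝ := (hH.eigenvectorUnitary : Matrix κ κ ℝ) with hV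
  have hs : star V = Vᵀ := by
    rw [Matrix.star_eq_conjTranspose, Matrix.conjTranspose_eq_transpose_of_trivial]
  have hV1 : V * Vᵀ = 1 := by
    rw [← hs]
    exact Unitary.mul_star_self_of_mem hH.eigenvectorUnitary.2
  have hV2 : Vᵀ * V = 1 := by
    rw [← hs]
    exact Unitary.star_mul_self_of_mem hH.eigenvectorUnitary.2
  have hA1 : B = P325y.dg V hH.eigenvalues := by
    have h := hH.spectral_theorem
    rw [Unitary.conjStarAlgAut_apply] at h
    rw [P325y.dg, ← hs]
    exact h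
  have hl : ∀ i, |hH.eigenvalues i| ≤ μ := by
    intro i
    set v : κ → ℝ := V *ᵥ (Pi.single i 1) with hv
    have e1 : Vᵀ *ᵥ v = Pi.single i 1 := by
      rw [hv, Matrix.mulVec_mulVec, hV2, Matrix.one_mulVec]
    have e2 : v ⬝ᵥ (B *ᵥ v) = hH.eigenvalues i := by
      have e0 : B *ᵥ v = P325y.dg V hH.eigenvalues *ᵥ v := congrArg (fun X => X *ᵥ v) hA1
      rw [e0, P325y.dg_form, e1]
      rw [Finset.sum_eq_single i]
      · simp
      · intro j _ hj
        rw [Pi.single_eq_of_ne hj]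
        ring
      · intro h
        exact absurd (mem_univ i) h
    have e3 : v ⬝ᵥ v = 1 := by
      rw [← P325y.sum_sq_transpose hV1, e1, Finset.sum_eq_single i]
      · simp
      · intro j _ hj
        rw [Pi.single_eq_of_ne hj]
        ring
      · intro h
        exact absurd (mem_univ i) h
    have := h v
    rwa [e2, e3, mul_one] at this
  have e4 : (B ^ (2 * J)).trace = (P325y.dg V hH.eigenvalues ^ (2 * J)).trace :=
    congrArg (fun X => (X ^ (2 * J)).trace) hA1
  rw [e4, P325y.dg_pow hV1 hV2, P325y.dg_trace hV2]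
  calc ∑ i, (hH.eigenvalues ^ (2 * J)) i ≤ ∑ _i : κ, μ ^ (2 * J) := by
        refine sum_le_sum fun i _ => ?_
        rw [Pi.pow_apply, ← Even.pow_abs (even_two_mul J)]
        exact pow_le_pow_left₀ (abs_nonneg _) (hl i) _
    _ = Fintype.card κ * μ ^ (2 * J) := by
        rw [sum_const, nsmul_eq_mul, card_univ]

/-- removing the two extreme eigenvectors -/
theorem trace_two {M : Matrix κ κ ℝ} (hM : Mᵀ = M) {a b : κ → ℝ} (ha : a ⬝ᵥ a = 1)
    (hb : b ⬝ᵥ b = 1) (hab : a ⬝ᵥ b = 0) (hMa : M *ᵥ a = a) (hMb : M *ᵥ b = -b) {μ : ℝ}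
    (h : ∀ f, f ⬝ᵥ a = 0 → f ⬝ᵥ b = 0 → |f ⬝ᵥ (M *ᵥ f)| ≤ μ * (f ⬝ᵥ f)) (hμ : 0 ≤ μ) {J : ℕ}
    (hJ : 0 < J) : (M ^ (2 * J)).trace ≤ 2 + Fintype.card κ * μ ^ (2 * J) := by
  set P : Matrix κ κ ℝ := vecMulVec a a with hP
  set R : Matrix κ κ ℝ := vecMulVec b b with hR
  set B : Matrix κ κ ℝ := M - P + R with hB
  have hba : b ⬝ᵥ a = 0 := by rw [dotProduct_comm, hab]
  have hPP : P * P = P := by
    rw [hP, vecMulVec_mul_vecMulVec, ha]
    simp
  have hRR : R * R = R := by
    rw [hR, vecMulVec_mul_vecMulVec, hb]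
    simp
  have hPR : P * R = 0 := by
    rw [hP, hR, vecMulVec_mul_vecMulVec, hab]
    simp
  have hRP : R * P = 0 := by
    rw [hP, hR, vecMulVec_mul_vecMulVec, hba]
    simp
  have hMP : M * P = P := by
    rw [hP, mul_vecMulVec, hMa]
  have hMR : M * R = -R := by
    rw [hR, mul_vecMulVec, hMb, neg_vecMulVec]
  have hPt : Pᵀ = P := by rw [hP, transpose_vecMulVec]
  have hRt : Rᵀ = R := by rw [hR, transpose_vecMulVec]
  have hPM : P * M = P := by
    have := congrArg Matrix.transpose hMP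
    rwa [Matrix.transpose_mul, hM, hPt] at this
  have hRM : R * M = -R := by
    have := congrArg Matrix.transpose hMR
    rwa [Matrix.transpose_mul, hM, hRt, Matrix.transpose_neg, hRt] at this
  have hBt : Bᵀ = B := by
    rw [hB, Matrix.transpose_add, Matrix.transpose_sub, hM, hPt, hRt]
  have hBP : B * P = 0 := by
    rw [hB, add_mul, sub_mul, hMP, hPP, hRP, sub_self, add_zero]
  have hBR : B * R = 0 := by
    rw [hB, add_mul, sub_mul, hMR, hPR, hRR, sub_zero, neg_add_cancel]
  have hPB : P * B = 0 := by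
    rw [hB, mul_add, mul_sub, hPM, hPP, hPR, sub_self, add_zero]
  have hRB : R * B = 0 := by
    rw [hB, mul_add, mul_sub, hRM, hRP, hRR, sub_zero, neg_add_cancel]
  have hMB : M = B + P - R := by
    rw [hB]
    abel
  have hM2 : M ^ 2 = B ^ 2 + P + R := by
    rw [hMB, sq, sq]
    simp only [add_mul, sub_mul, mul_add, mul_sub, hPP, hRR, hPR, hRP, hBP, hBR, hPB, hRB]
    abel
  have hpow : ∀ n : ℕ, M ^ (2 * (n + 1)) = B ^ (2 * (n + 1)) + P + R := by
    intro n
    induction n with
    | zero => simpa using hM2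
    | succ n ih =>
      have e1 : B ^ (2 * (n + 1)) * P = 0 := by
        rw [show 2 * (n + 1) = (2 * n + 1) + 1 by ring, pow_succ, mul_assoc, hBP, mul_zero]
      have e2 : B ^ (2 * (n + 1)) * R = 0 := by
        rw [show 2 * (n + 1) = (2 * n + 1) + 1 by ring, pow_succ, mul_assoc, hBR, mul_zero]
      have e3 : P * B ^ 2 = 0 := by rw [sq, ← mul_assoc, hPB, zero_mul]
      have e4 : R * B ^ 2 = 0 := by rw [sq, ← mul_assoc, hRB, zero_mul]
      rw [show 2 * (n + 1 + 1) = 2 * (n + 1) + 2 by ring, pow_add, ih, hM2, pow_add]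
      generalize B ^ (2 * (n + 1)) = X at e1 e2 ⊢
      generalize B ^ 2 = Y at e3 e4 ⊢
      have e5 : (X + P + R) * (Y + P + R) = X * Y + X * P + X * R + P * Y + P * P + P * R +
          R * Y + R * P + R * R := by noncomm_ring
      rw [e5, e1, e2, e3, e4, hPP, hRR, hPR, hRP]
      simp
  obtain ⟨j, rfl⟩ : ∃ j, J = j + 1 := ⟨J - 1, by omega⟩
  rw [hpow, Matrix.trace_add, Matrix.trace_add]
  have htP : P.trace = 1 := by rw [hP, trace_vecMulVec, ha]
  have htR : R.trace = 1 := by rw [hR, trace_vecMulVec, hb]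
  rw [htP, htR]
  have hform : ∀ f, |f ⬝ᵥ (B *ᵥ f)| ≤ μ * (f ⬝ᵥ f) := by
    intro f
    set α := f ⬝ᵥ a with hα
    set β := f ⬝ᵥ b with hβ
    set g : κ → ℝ := f - α • a - β • b with hg
    have hga : g ⬝ᵥ a = 0 := by
      rw [hg, sub_dotProduct, sub_dotProduct, smul_dotProduct, smul_dotProduct, ha, hba, ← hα]
      simp
    have hgb : g ⬝ᵥ b = 0 := by
      rw [hg, sub_dotProduct, sub_dotProduct, smul_dotProduct, smul_dotProduct, hab, hb, ← hβ]
      simp
    have hBa : B *ᵥ a = 0 := by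
      rw [hB, Matrix.add_mulVec, Matrix.sub_mulVec, hMa, hP, hR, vecMulVec_mulVec,
        vecMulVec_mulVec, ha, hba]
      simp
    have hBb : B *ᵥ b = 0 := by
      rw [hB, Matrix.add_mulVec, Matrix.sub_mulVec, hMb, hP, hR, vecMulVec_mulVec,
        vecMulVec_mulVec, hab, hb]
      simp
    have hBf : B *ᵥ f = B *ᵥ g := by
      rw [hg, Matrix.mulVec_sub, Matrix.mulVec_sub, Matrix.mulVec_smul, Matrix.mulVec_smul, hBa,
        hBb]
      simp
    have hag : a ⬝ᵥ g = 0 := by rw [dotProduct_comm, hga]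
    have hbg : b ⬝ᵥ g = 0 := by rw [dotProduct_comm, hgb]
    have hBg : B *ᵥ g = M *ᵥ g := by
      rw [hB, Matrix.add_mulVec, Matrix.sub_mulVec, hP, hR, vecMulVec_mulVec,
        vecMulVec_mulVec, hag, hbg]
      simp
    have hfB : ∀ v, f ⬝ᵥ (B *ᵥ v) = g ⬝ᵥ (B *ᵥ v) := by
      intro v
      rw [← P325y.dot_symm hBt, hBf, P325y.dot_symm hBt]
    have hff : f ⬝ᵥ f = g ⬝ᵥ g + α ^ 2 + β ^ 2 := by
      have e : f = g + α • a + β • b := by rw [hg]; abel
      conv_lhs => rw [e]
      simp only [add_dotProduct, dotProduct_add, smul_dotProduct, dotProduct_smul, smul_eq_mul,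
        ha, hb, hab, hba, hga, hgb, hag, hbg]
      ring
    rw [hfB, hBf, hBg]
    refine (h g hga hgb).trans ?_
    refine mul_le_mul_of_nonneg_left ?_ hμ
    rw [hff]
    nlinarith [sq_nonneg α, sq_nonneg β]
  have := trace_even_pow_le hBt hform (j + 1)
  linarith

end abs

section game

open Pool.Agent.Lib.P325x (Game)

variable {U W Ω ι : Type} [Fintype U] [Fintype W] [Fintype ι] [DecidableEq U] [DecidableEq W]

/-- The trace bound for the graph of a game. -/
theorem game_trace (I : Game U W Ω ι) [Nonempty ι] {μ : ℝ} (hμ : 0 ≤ μ)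
    (hI : I.SecondEigenvalueLE μ) {J : ℕ} (hJ : 0 < J) :
    (MM (fun e => (Sum.inl (I.src e) : U ⊕ W)) (fun e => Sum.inr (I.dst e))
      (fun _ : ι => (1 : ℝ)) ^ (2 * J)).trace ≤
      2 + (Fintype.card (U ⊕ W) : ℝ) * μ ^ (2 * J) := by
  set s : ι → U ⊕ W := fun e => Sum.inl (I.src e) with hs
  set t : ι → U ⊕ W := fun e => Sum.inr (I.dst e) with ht
  set w : ι → ℝ := fun _ => 1 with hw
  have hw0 : ∀ e, 0 ≤ w e := fun _ => zero_le_one
  have hm : (0 : ℝ) < Fintype.card ι := by exact_mod_cast Fintype.card_pos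
  set c : ℝ := (√(2 * Fintype.card ι))⁻¹ with hc
  have hc2 : c ^ 2 * (2 * Fintype.card ι) = 1 := by
    rw [hc, inv_pow, Real.sq_sqrt (by positivity)]
    exact inv_mul_cancel₀ (by positivity)
  set a : U ⊕ W → ℝ := fun x => √(dg s t w x) with ha
  set b : U ⊕ W → ℝ := Sum.elim (fun u => √(dg s t w (Sum.inl u)))
    (fun v => -√(dg s t w (Sum.inr v))) with hb
  have hsq : ∀ x, √(dg s t w x) * √(dg s t w x) = dg s t w x := fun x =>
    Real.mul_self_sqrt (dg_nonneg hw0 x)
  have hsumw : ∑ e, w e = Fintype.card ι := by simp [hw]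
  have haa : a ⬝ᵥ a = 2 * Fintype.card ι := by
    simp only [dotProduct, ha, hsq]
    rw [sum_dg, hsumw]
  have hbb : b ⬝ᵥ b = 2 * Fintype.card ι := by
    rw [← haa]
    simp only [dotProduct, Fintype.sum_sum_type, ha, hb, Sum.elim_inl, Sum.elim_inr, neg_mul_neg]
  -- sums over the left and over the right side
  have hleft : ∀ F : U → ℝ, ∑ u, dg s t w (Sum.inl u) * F u = ∑ e, F (I.src e) := by
    intro F
    have h := sum_dg_mul (s := s) (t := t) (w := w) (Sum.elim F (fun _ => 0))
    rw [Fintype.sum_sum_type] at h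
    simpa [hs, ht, hw] using h
  have hright : ∀ F : W → ℝ, ∑ v, dg s t w (Sum.inr v) * F v = ∑ e, F (I.dst e) := by
    intro F
    have h := sum_dg_mul (s := s) (t := t) (w := w) (Sum.elim (fun _ => 0) F)
    rw [Fintype.sum_sum_type] at h
    simpa [hs, ht, hw] using h
  have hab : a ⬝ᵥ b = 0 := by
    simp only [dotProduct, Fintype.sum_sum_type, ha, hb, Sum.elim_inl, Sum.elim_inr, mul_neg, hsq,
      Finset.sum_neg_distrib]
    have h1 := hleft (fun _ => 1)
    have h2 := hright (fun _ => 1)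
    simp only [mul_one] at h1 h2
    rw [h1, h2]
    ring
  have hMa : MM s t w *ᵥ a = a := MM_mulVec_sqrt hw0
  -- the matrix has no entries inside the sides
  have hll : ∀ u u', MM s t w (Sum.inl u) (Sum.inl u') = 0 := by
    intro u u'
    simp [MM, aj, hs, ht]
  have hrr : ∀ v v', MM s t w (Sum.inr v) (Sum.inr v') = 0 := by
    intro v v'
    simp [MM, aj, hs, ht]
  have hMb : MM s t w *ᵥ b = -b := by
    ext x
    have hx := congrFun hMa x
    simp only [Matrix.mulVec, dotProduct, Fintype.sum_sum_type] at hx ⊢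
    rcases x with u | v
    · simp only [hll, zero_mul, Finset.sum_const_zero, zero_add] at hx ⊢
      simp only [Pi.neg_apply, hb, Sum.elim_inl, Sum.elim_inr, mul_neg, Finset.sum_neg_distrib]
      rw [neg_inj]
      exact hx
    · simp only [hrr, zero_mul, Finset.sum_const_zero, add_zero] at hx ⊢
      simp only [Pi.neg_apply, hb, Sum.elim_inl, Sum.elim_inr, neg_neg]
      exact hx
  have hform : ∀ f, f ⬝ᵥ (c • a) = 0 → f ⬝ᵥ (c • b) = 0 →
      |f ⬝ᵥ (MM s t w *ᵥ f)| ≤ μ * (f ⬝ᵥ f) := by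
    intro f hfa hfb
    have hcpos : 0 < c := by rw [hc]; positivity
    rw [dotProduct_smul, smul_eq_mul, mul_eq_zero, or_iff_right hcpos.ne'] at hfa hfb
    simp only [dotProduct, Fintype.sum_sum_type, ha, hb, Sum.elim_inl, Sum.elim_inr, mul_neg,
      Finset.sum_neg_distrib] at hfa hfb
    have hq : ∀ x, dg s t w x * (f x / √(dg s t w x)) = f x * √(dg s t w x) := by
      intro x
      by_cases hx : dg s t w x = 0
      · rw [hx]
        simp
      · have h1 : √(dg s t w x) ≠ 0 := by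
          intro h
          apply hx
          rw [← hsq x, h, zero_mul]
        have h2 := hsq x
        rw [mul_div_assoc', div_eq_iff h1]
        rw [mul_assoc, h2]
        ring
    set F : U → ℝ := fun u => f (Sum.inl u) / √(dg s t w (Sum.inl u)) with hF
    set G : W → ℝ := fun v => f (Sum.inr v) / √(dg s t w (Sum.inr v)) with hG
    have hF0 : ∑ e, F (I.src e) = 0 := by
      rw [← hleft F, hF]
      simp only [hq]
      linarith
    have hG0 : ∑ e, G (I.dst e) = 0 := by
      rw [← hright G, hG]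
      simp only [hq]
      linarith
    have h1 := hI F G hF0 hG0
    have h2 := hI (fun u => -F u) G (by simp [hF0]) hG0
    have h3 := dot_ge (s := s) (t := t) (w := w) hw0 f
    have h4 := bil (s := s) (t := t) (w := w) hw0 f f
    have e1 : f ⬝ᵥ (MM s t w *ᵥ f) = 2 * ∑ e, F (I.src e) * G (I.dst e) := by
      rw [h4, Finset.mul_sum]
      refine Finset.sum_congr rfl fun e _ => ?_
      simp only [hw, hs, ht, hF, hG]
      ring
    have e2 : ∑ e, F (I.src e) ^ 2 + ∑ e, G (I.dst e) ^ 2 ≤ f ⬝ᵥ f := by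
      refine le_trans (le_of_eq ?_) h3
      rw [← Finset.sum_add_distrib]
      refine Finset.sum_congr rfl fun e _ => ?_
      simp only [hw, hs, ht, hF, hG]
      ring
    have e3 := mul_le_mul_of_nonneg_left e2 hμ
    simp only [neg_mul, Finset.sum_neg_distrib, even_two, Even.neg_pow] at h2
    rw [e1, abs_le]
    constructor <;> linarith
  have := trace_two (M := MM s t w) MM_transpose (a := c • a) (b := c • b)
    (by rw [smul_dotProduct, dotProduct_smul, haa, smul_eq_mul, smul_eq_mul, ← hc2]; ring)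
    (by rw [smul_dotProduct, dotProduct_smul, hbb, smul_eq_mul, smul_eq_mul, ← hc2]; ring)
    (by rw [smul_dotProduct, dotProduct_smul, hab]; simp)
    (by rw [Matrix.mulVec_smul, hMa]) (by rw [Matrix.mulVec_smul, hMb, smul_neg]) hform hμ hJ
  exact this

end game

end Pool.Agent.Lib.P325w
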